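import Mathlib
import Pool.Agent.H86.CMLib.H204R3.SP.FFT
import Pool.Agent.H86.CMLib.H204R3.CM.Alt

/-!
# The Lie algebra that kills all Tate forms
-/

set_option linter.unusedSectionVars false

namespace Pool.Agent.H204R3.SP

noncomputable section

variable {Ω : Type*} [Field Ω] {V : Type*} [AddCommGroup V] [Module Ω V]
  {Γ : Type*} [Group Γ] (ρ : Representation Ω Γ V) (χ : Γ →* Ω)

/-- A multilinear form in `2 m` variables on which a subgroup of finite index acts through the
`m`-th power of the character `χ`. -/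
def IsTate (m : ℕ) (φ : MultilinearMap Ω (fun _ : Fin m × Fin 2 => V) Ω) : Prop :=
  ∃ Δ : Subgroup Γ, Δ.FiniteIndex ∧ ∀ s ∈ Δ, ∀ v, φ (fun k => ρ s (v k)) = χ s ^ m * φ v

/-- The endomorphism `X` kills the form `φ` (as an element of the Lie algebra). -/
def Kills {κ : Type*} [Fintype κ] [DecidableEq κ] (X : Module.End Ω V)
    (φ : MultilinearMap Ω (fun _ : κ => V) Ω) : Prop :=
  ∀ v : κ → V, ∑ k, φ (Function.update v k (X (v k))) = 0

/-- The endomorphisms that kill all Tate forms. -/
def lieT : Submodule Ω (Module.End Ω V) where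
  carrier := {X | ∀ m φ, IsTate ρ χ m φ → Kills X φ}
  zero_mem' := by
    intro m φ _ v
    refine Finset.sum_eq_zero fun k _ => ?_
    rw [LinearMap.zero_apply]
    exact φ.map_coord_zero k (Function.update_self _ _ _)
  add_mem' := by
    intro X Y hX hY m φ hφ v
    have h1 := hX m φ hφ v
    have h2 := hY m φ hφ v
    have h3 := congrArg₂ (fun x y : Ω => x + y) h1 h2
    simp only [add_zero] at h3
    rw [← h3, ← Finset.sum_add_distrib]
    refine Finset.sum_congr rfl fun k _ => ?_
    rw [LinearMap.add_apply, MultilinearMap.map_update_add]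
  smul_mem' := by
    intro c X hX m φ hφ v
    have h1 := hX m φ hφ v
    rw [← mul_zero c, ← h1, Finset.mul_sum]
    refine Finset.sum_congr rfl fun k _ => ?_
    rw [LinearMap.smul_apply, MultilinearMap.map_update_smul, smul_eq_mul]

theorem kills_bracket {κ : Type*} [Fintype κ] [DecidableEq κ] {X Y : Module.End Ω V}
    {φ : MultilinearMap Ω (fun _ : κ => V) Ω} (hX : Kills X φ) (hY : Kills Y φ) :
    Kills (X * Y - Y * X) φ := by
  intro v
  -- the double sums
  have key : ∀ (A B : Module.End Ω V), Kills B φ →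
      ∑ j, φ (Function.update v j (B (A (v j)))) =
        -∑ j, ∑ k ∈ Finset.univ.erase j,
          φ (Function.update (Function.update v j (A (v j))) k (B (v k))) := by
    intro A B hB
    rw [← Finset.sum_neg_distrib]
    refine Finset.sum_congr rfl fun j _ => ?_
    have h1 := hB (Function.update v j (A (v j)))
    rw [← Finset.add_sum_erase _ _ (Finset.mem_univ j), Function.update_self,
      Function.update_idem] at h1
    rw [eq_neg_iff_add_eq_zero, ← h1]
    congr 1
    refine Finset.sum_congr rfl fun k hk => ?_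
    rw [Function.update_of_ne (Finset.ne_of_mem_erase hk)]
  have h1 : ∀ k, φ (Function.update v k ((X * Y - Y * X) (v k))) =
      φ (Function.update v k (X (Y (v k)))) - φ (Function.update v k (Y (X (v k)))) := by
    intro k
    rw [LinearMap.sub_apply, MultilinearMap.map_update_sub]
    rfl
  rw [Finset.sum_congr rfl (fun k _ => h1 k), Finset.sum_sub_distrib, key Y X hX, key X Y hY]
  have h2 : ∑ j, ∑ k ∈ Finset.univ.erase j,
      φ (Function.update (Function.update v j (Y (v j))) k (X (v k))) =
      ∑ j, ∑ k ∈ Finset.univ.erase j,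
      φ (Function.update (Function.update v j (X (v j))) k (Y (v k))) := by
    have h3 : ∀ (A B : Module.End Ω V), ∑ j, ∑ k ∈ Finset.univ.erase j,
        φ (Function.update (Function.update v j (A (v j))) k (B (v k))) =
        ∑ j, ∑ k, if k ≠ j then
          φ (Function.update (Function.update v j (A (v j))) k (B (v k))) else 0 := by
      intro A B
      refine Finset.sum_congr rfl fun j _ => ?_
      rw [← Finset.sum_filter]
      refine Finset.sum_congr ?_ fun _ _ => rfl
      ext k
      simp
    rw [h3, h3, Finset.sum_comm]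
    refine Finset.sum_congr rfl fun j _ => Finset.sum_congr rfl fun k _ => ?_
    by_cases h : k = j
    · subst h
      simp
    · rw [if_pos (Ne.symm h), if_pos h, Function.update_comm (Ne.symm h)]
  rw [h2, sub_self]

theorem lieT_bracket {X Y : Module.End Ω V} (hX : X ∈ lieT ρ χ) (hY : Y ∈ lieT ρ χ) :
    X * Y - Y * X ∈ lieT ρ χ :=
  fun m φ hφ => kills_bracket (hX m φ hφ) (hY m φ hφ)

theorem rho_inv (s : Γ) (v : V) : ρ s⁻¹ (ρ s v) = v := by
  rw [← Module.End.mul_apply, ← map_mul, inv_mul_cancel, map_one]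
  rfl

theorem rho_inv' (s : Γ) (v : V) : ρ s (ρ s⁻¹ v) = v := by
  rw [← Module.End.mul_apply, ← map_mul, mul_inv_cancel, map_one]
  rfl

theorem lieT_conj (s : Γ) {X : Module.End Ω V} (hX : X ∈ lieT ρ χ) :
    ρ s * X * ρ s⁻¹ ∈ lieT ρ χ := by
  intro m φ hφ v
  obtain ⟨Δ, hΔ, hφ⟩ := hφ
  let φ' : MultilinearMap Ω (fun _ : Fin m × Fin 2 => V) Ω := φ.compLinearMap (fun _ => ρ s)
  have hφ' : IsTate ρ χ m φ' := by
    refine ⟨Δ.comap (MulAut.conj s).toMonoidHom, ⟨by
      rw [Subgroup.index_comap_of_surjective _ (MulAut.conj s).surjective]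
      exact hΔ.index_ne_zero⟩, fun t ht v => ?_⟩
    have h1 : s * t * s⁻¹ ∈ Δ := by
      rw [Subgroup.mem_comap] at ht
      exact ht
    have h2 := hφ _ h1 (fun k => ρ s (v k))
    change φ (fun k => ρ s (ρ t (v k))) = χ t ^ m * φ (fun k => ρ s (v k))
    have h3 : ∀ k, ρ (s * t * s⁻¹) (ρ s (v k)) = ρ s (ρ t (v k)) := by
      intro k
      rw [map_mul, map_mul, Module.End.mul_apply, Module.End.mul_apply, rho_inv]
    have h4 : χ (s * t * s⁻¹) = χ t := by
      rw [map_mul, map_mul, mul_right_comm, ← map_mul, mul_inv_cancel, map_one, one_mul]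
    simp only [h3, h4] at h2
    exact h2
  have h1 := hX m φ' hφ' (fun k => ρ s⁻¹ (v k))
  rw [← h1]
  refine Finset.sum_congr rfl fun k _ => ?_
  change _ = φ (fun l => ρ s (Function.update (fun k => ρ s⁻¹ (v k)) k (X (ρ s⁻¹ (v k))) l))
  congr 1
  funext l
  by_cases h : l = k
  · subst h
    rw [Function.update_self, Function.update_self]
    rfl
  · rw [Function.update_of_ne h, Function.update_of_ne h, rho_inv']

/-- A bilinear form as a multilinear form. -/
def bil2 {W : Type*} [AddCommGroup W] [Module Ω W] (ω : W →ₗ[Ω] W →ₗ[Ω] Ω) :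
    MultilinearMap Ω (fun _ : Fin 2 => W) Ω where
  toFun v := ω (v 0) (v 1)
  map_update_add' := by
    intro _ v i x y
    fin_cases i
    · have h : ∀ z : W, Function.update v 0 z 1 = v 1 := fun z =>
        Function.update_of_ne Fin.zero_ne_one.symm _ _
      have h0 : ∀ z : W, Function.update v 0 z 0 = z := fun z => Function.update_self _ _ _
      convert! (show ω (Function.update v 0 (x + y) 0) (Function.update v 0 (x + y) 1) =
        ω (Function.update v 0 x 0) (Function.update v 0 x 1) +
        ω (Function.update v 0 y 0) (Function.update v 0 y 1) from ?_)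
      rw [h, h, h, h0, h0, h0, map_add, LinearMap.add_apply]
    · have h : ∀ z : W, Function.update v 1 z 0 = v 0 := fun z =>
        Function.update_of_ne Fin.zero_ne_one _ _
      have h0 : ∀ z : W, Function.update v 1 z 1 = z := fun z => Function.update_self _ _ _
      convert! (show ω (Function.update v 1 (x + y) 0) (Function.update v 1 (x + y) 1) =
        ω (Function.update v 1 x 0) (Function.update v 1 x 1) +
        ω (Function.update v 1 y 0) (Function.update v 1 y 1) from ?_)
      rw [h, h, h, h0, h0, h0, map_add]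
  map_update_smul' := by
    intro _ v i c x
    fin_cases i
    · have h : ∀ z : W, Function.update v 0 z 1 = v 1 := fun z =>
        Function.update_of_ne Fin.zero_ne_one.symm _ _
      have h0 : ∀ z : W, Function.update v 0 z 0 = z := fun z => Function.update_self _ _ _
      convert! (show ω (Function.update v 0 (c • x) 0) (Function.update v 0 (c • x) 1) =
        c • ω (Function.update v 0 x 0) (Function.update v 0 x 1) from ?_)
      rw [h, h, h0, h0, map_smul, LinearMap.smul_apply]
    · have h : ∀ z : W, Function.update v 1 z 0 = v 0 := fun z =>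
        Function.update_of_ne Fin.zero_ne_one _ _
      have h0 : ∀ z : W, Function.update v 1 z 1 = z := fun z => Function.update_self _ _ _
      convert! (show ω (Function.update v 1 (c • x) 0) (Function.update v 1 (c • x) 1) =
        c • ω (Function.update v 1 x 0) (Function.update v 1 x 1) from ?_)
      rw [h, h, h0, h0, map_smul]

theorem bil2_apply {W : Type*} [AddCommGroup W] [Module Ω W] (ω : W →ₗ[Ω] W →ₗ[Ω] Ω)
    (v : Fin 2 → W) : bil2 ω v = ω (v 0) (v 1) := rfl

/-- The alternating form is a Tate form. -/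
theorem isTate_om (ω : V →ₗ[Ω] V →ₗ[Ω] Ω) (hω : ∀ s u v, ω (ρ s u) (ρ s v) = χ s * ω u v) :
    IsTate ρ χ 1 (Pool.Agent.H204R3.CM.prodMap (fun _ : Fin 1 => bil2 ω)) := by
  refine ⟨⊤, inferInstance, fun s _ v => ?_⟩
  rw [Pool.Agent.H204R3.CM.prodMap_apply, Pool.Agent.H204R3.CM.prodMap_apply, Fin.prod_univ_one,
    Fin.prod_univ_one, bil2_apply, bil2_apply, hω, pow_one]

theorem lieT_sp (ω : V →ₗ[Ω] V →ₗ[Ω] Ω) (hω : ∀ s u v, ω (ρ s u) (ρ s v) = χ s * ω u v)
    {X : Module.End Ω V} (hX : X ∈ lieT ρ χ) (u w : V) : ω (X u) w + ω u (X w) = 0 := by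
  have h1 := hX 1 _ (isTate_om ρ χ ω hω) (fun k => if k.2 = 0 then u else w)
  rw [Fintype.sum_prod_type, Fin.sum_univ_one, Fin.sum_univ_two] at h1
  simp only [Pool.Agent.H204R3.CM.prodMap_apply, Fin.prod_univ_one, bil2_apply] at h1
  simpa using h1

end

end Pool.Agent.H204R3.SP
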