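import Mathlib
import Pool.Agent.H86.CMLib.H204R3.SP.Lie

/-!
# A Lie algebra that contains the diagonal torus
-/

set_option linter.unusedSectionVars false

namespace Pool.Agent.H204R3.SP

open Module

noncomputable section

variable {Ω : Type*} [Field Ω] {V : Type*} [AddCommGroup V] [Module Ω V]

/-- The endomorphism `v ↦ ω(u, v) w + ω(w, v) u`. -/
def SS (ω : V →ₗ[Ω] V →ₗ[Ω] Ω) (u w : V) : Module.End Ω V :=
  (ω u).smulRight w + (ω w).smulRight u

theorem SS_apply (ω : V →ₗ[Ω] V →ₗ[Ω] Ω) (u w v : V) :
    SS ω u w v = ω u v • w + ω w v • u := rfl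

theorem SS_comm (ω : V →ₗ[Ω] V →ₗ[Ω] Ω) (u w : V) : SS ω u w = SS ω w u := by
  ext v
  rw [SS_apply, SS_apply, add_comm]

variable {R : Type*} [Fintype R] [DecidableEq R] (e : Basis R Ω V) (inv : R → R) {jj : R → Ω}

/-- The weight of a basis vector for the basic diagonal elements. -/
def dd (y a : R) : Ω := (if a = y then 1 else 0) - (if a = inv y then 1 else 0)

/-- The basic diagonal elements of the symplectic Lie algebra. -/
def DD (y : R) : Module.End Ω V := e.constr Ω (fun a => (dd inv y a : Ω) • e a)

theorem DD_basis (y a : R) : DD e inv y (e a) = (dd inv y a : Ω) • e a := by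
  unfold DD
  rw [Basis.constr_basis]

theorem DD_repr (y : R) (v : V) (b : R) : e.repr (DD e inv y v) b = dd inv y b * e.repr v b := by
  conv_lhs => rw [← e.sum_repr v]
  rw [map_sum, map_sum, Finsupp.finsetSum_apply, Finset.sum_eq_single b]
  · rw [map_smul, DD_basis, map_smul, map_smul, e.repr_self, Finsupp.smul_apply,
      Finsupp.smul_apply, Finsupp.single_eq_same, smul_eq_mul, smul_eq_mul]
    ring
  · intro a _ hab
    rw [map_smul, DD_basis, map_smul, map_smul, e.repr_self, Finsupp.smul_apply,
      Finsupp.smul_apply, Finsupp.single_eq_of_ne hab.symm, smul_zero, smul_zero]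
  · intro h
    exact absurd (Finset.mem_univ _) h

variable (𝔤 : Submodule Ω (Module.End Ω V))
  (hbr : ∀ X ∈ 𝔤, ∀ Y ∈ 𝔤, X * Y - Y * X ∈ 𝔤)
  (hD : ∀ y, DD e inv y ∈ 𝔤)

include hbr hD in
theorem mask (y : R) (cs : List Ω) (X : Module.End Ω V) (hX : X ∈ 𝔤) :
    ∃ Y ∈ 𝔤, ∀ a b, e.repr (Y (e a)) b =
      (cs.map (fun c => dd inv y b - dd inv y a - c)).prod * e.repr (X (e a)) b := by
  induction cs with
  | nil => exact ⟨X, hX, fun a b => by simp⟩
  | cons c cs ih =>
    obtain ⟨Y, hY, hYc⟩ := ih
    refine ⟨(DD e inv y * Y - Y * DD e inv y) - c • Y,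
      Submodule.sub_mem _ (hbr _ (hD y) _ hY) (Submodule.smul_mem _ _ hY), fun a b => ?_⟩
    have h1 : ((DD e inv y * Y - Y * DD e inv y) - c • Y) (e a) =
        DD e inv y (Y (e a)) - Y (DD e inv y (e a)) - c • Y (e a) := rfl
    rw [h1, DD_basis, map_smul, map_sub, map_sub, Finsupp.sub_apply, Finsupp.sub_apply, DD_repr,
      map_smul, map_smul, Finsupp.smul_apply, Finsupp.smul_apply, smul_eq_mul, smul_eq_mul, hYc a b,
      List.map_cons, List.prod_cons]
    ring

variable {inv} (hinv : ∀ x, inv (inv x) = x) (hne : ∀ x, inv x ≠ x)
  (hjj : ∀ x, jj (inv x) = -jj x) (hj0 : ∀ x, jj x ≠ 0)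
  (ω : V →ₗ[Ω] V →ₗ[Ω] Ω) (hω : ∀ x y, ω (e x) (e y) = JJ inv jj x y)
  (hsp : ∀ X ∈ 𝔤, ∀ u w, ω (X u) w + ω u (X w) = 0)

theorem dd_self (hne : ∀ x, inv x ≠ x) (y : R) : (dd inv y y : Ω) = 1 := by
  unfold dd
  rw [if_pos rfl, if_neg (fun h => hne y h.symm), sub_zero]

theorem dd_inv (hne : ∀ x, inv x ≠ x) (y : R) : (dd inv y (inv y) : Ω) = -1 := by
  unfold dd
  rw [if_neg (hne y), if_pos rfl, zero_sub]

theorem dd_other {y a : R} (h1 : a ≠ y) (h2 : a ≠ inv y) : (dd inv y a : Ω) = 0 := by
  unfold dd
  rw [if_neg h1, if_neg h2, sub_zero]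

include hω in
theorem SS_repr (p q a b : R) :
    e.repr (SS ω (e p) (e q) (e a)) b =
      JJ inv jj p a * (if q = b then 1 else 0) + JJ inv jj q a * (if p = b then 1 else 0) := by
  rw [SS_apply, map_add, map_smul, map_smul, Finsupp.add_apply, Finsupp.smul_apply,
    Finsupp.smul_apply, hω, hω, e.repr_self, e.repr_self, Finsupp.single_apply,
    Finsupp.single_apply, smul_eq_mul, smul_eq_mul]

variable [CharZero Ω]

include hbr hD hinv hne hjj hj0 hω hsp in
/-- If an element of the Lie algebra has a nonzero matrix coefficient from `e x` to `e z`, the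
corresponding root vector is in the Lie algebra. -/
theorem root_mem {X : Module.End Ω V} (hX : X ∈ 𝔤) {x z : R} (hxz : x ≠ z)
    (hc : e.repr (X (e x)) z ≠ 0) : SS ω (e (inv x)) (e z) ∈ 𝔤 := by
  by_cases hz : z = inv x
  · subst hz
    obtain ⟨Y, hY, hYc⟩ := mask e inv 𝔤 hbr hD x [0, 1, -1, 2] X hX
    have h1 : SS ω (e (inv x)) (e (inv x)) =
        (2 * jj (inv x) / (24 * e.repr (X (e x)) (inv x))) • Y := by
      refine e.ext fun a => e.repr.injective (Finsupp.ext fun b => ?_)
      rw [LinearMap.smul_apply, map_smul, Finsupp.smul_apply, hYc, SS_repr e ω hω, smul_eq_mul]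
      simp only [List.map_cons, List.map_nil, List.prod_cons, List.prod_nil]
      by_cases ha : a = x
      · subst ha
        have h2 : JJ inv jj (inv a) a = jj (inv a) := by
          unfold JJ
          rw [if_pos (hinv a).symm]
        rw [h2]
        by_cases hb : b = inv a
        · subst hb
          rw [if_pos rfl, dd_inv hne, dd_self hne]
          field_simp
          ring
        · rw [if_neg (Ne.symm hb)]
          by_cases hb2 : b = a
          · subst hb2
            rw [dd_self hne]
            ring
          · rw [dd_other hb2 hb, dd_self hne]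
            ring
      · have h2 : JJ inv jj (inv x) a = 0 := by
          unfold JJ
          rw [hinv, if_neg ha]
        rw [h2, zero_mul, add_zero]
        by_cases ha2 : a = inv x
        · subst ha2
          rw [dd_inv hne]
          by_cases hb : b = x
          · subst hb
            rw [dd_self hne]
            ring
          · by_cases hb2 : b = inv x
            · subst hb2
              rw [dd_inv hne]
              ring
            · rw [dd_other hb hb2]
              ring
        · rw [dd_other ha ha2]
          by_cases hb : b = x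
          · subst hb
            rw [dd_self hne]
            ring
          · by_cases hb2 : b = inv x
            · subst hb2
              rw [dd_inv hne]
              ring
            · rw [dd_other hb hb2]
              ring
    rw [h1]
    exact Submodule.smul_mem _ _ hY
  · obtain ⟨Y1, hY1, hY1c⟩ := mask e inv 𝔤 hbr hD x [0, 1, 2, -2] X hX
    obtain ⟨Y, hY, hYc⟩ := mask e inv 𝔤 hbr hD z [0, -1, 2, -2] Y1 hY1
    simp only [List.map_cons, List.map_nil, List.prod_cons, List.prod_nil] at hY1c hYc
    have hzx : z ≠ x := hxz.symm
    have hxz' : x ≠ inv z := fun h => hz (by rw [h, hinv])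
    have hizx : inv z ≠ x := hxz'.symm
    have hizx' : inv z ≠ inv x := fun h => hzx (by rw [← hinv z, h, hinv])
    have hixz : inv x ≠ z := Ne.symm hz
    have hixz' : inv x ≠ inv z := Ne.symm hizx'
    -- the coefficients of `Y`
    have hval : ∀ a b, e.repr (Y (e a)) b =
        (if (a = x ∧ b = z) ∨ (a = inv z ∧ b = inv x) then 36 * e.repr (X (e a)) b else 0) := by
      intro a b
      rw [hYc, hY1c]
      by_cases h : (a = x ∧ b = z) ∨ (a = inv z ∧ b = inv x)
      · rw [if_pos h]
        rcases h with ⟨rfl, rfl⟩ | ⟨rfl, rfl⟩
        · rw [dd_self hne, dd_self hne, dd_other hxz hxz', dd_other hzx hz]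
          ring
        · rw [dd_inv hne, dd_inv hne, dd_other hixz hixz', dd_other hizx hizx']
          ring
      · rw [if_neg h]
        -- the product of the two polynomials vanishes
        have hx : ∀ a b : R, ¬ (a = x ∧ b ≠ x ∧ b ≠ inv x) → ¬ (b = inv x ∧ a ≠ x ∧ a ≠ inv x) →
            ((dd inv x b : Ω) - dd inv x a - 0) * ((dd inv x b - dd inv x a - 1) *
              ((dd inv x b - dd inv x a - 2) * ((dd inv x b - dd inv x a - -2) * 1))) = 0 := by
          intro a b h1 h2
          by_cases ha : a = x
          · subst ha
            rw [dd_self hne]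
            by_cases hb : b = a
            · subst hb
              rw [dd_self hne]; ring
            · by_cases hb2 : b = inv a
              · subst hb2
                rw [dd_inv hne]; ring
              · exact absurd ⟨rfl, hb, hb2⟩ h1
          · by_cases ha2 : a = inv x
            · subst ha2
              rw [dd_inv hne]
              by_cases hb : b = x
              · subst hb
                rw [dd_self hne]; ring
              · by_cases hb2 : b = inv x
                · subst hb2
                  rw [dd_inv hne]; ring
                · rw [dd_other hb hb2]; ring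
            · rw [dd_other ha ha2]
              by_cases hb : b = x
              · subst hb
                rw [dd_self hne]; ring
              · by_cases hb2 : b = inv x
                · exact absurd ⟨hb2, ha, ha2⟩ h2
                · rw [dd_other hb hb2]; ring
        have hz' : ∀ a b : R, ¬ (b = z ∧ a ≠ z ∧ a ≠ inv z) → ¬ (a = inv z ∧ b ≠ z ∧ b ≠ inv z) →
            ((dd inv z b : Ω) - dd inv z a - 0) * ((dd inv z b - dd inv z a - -1) *
              ((dd inv z b - dd inv z a - 2) * ((dd inv z b - dd inv z a - -2) * 1))) = 0 := by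
          intro a b h1 h2
          by_cases hb : b = z
          · subst hb
            rw [dd_self hne]
            by_cases ha : a = b
            · subst ha
              rw [dd_self hne]; ring
            · by_cases ha2 : a = inv b
              · subst ha2
                rw [dd_inv hne]; ring
              · exact absurd ⟨rfl, ha, ha2⟩ h1
          · by_cases hb2 : b = inv z
            · subst hb2
              rw [dd_inv hne]
              by_cases ha : a = z
              · subst ha
                rw [dd_self hne]; ring
              · by_cases ha2 : a = inv z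
                · subst ha2
                  rw [dd_inv hne]; ring
                · rw [dd_other ha ha2]; ring
            · rw [dd_other hb hb2]
              by_cases ha : a = z
              · subst ha
                rw [dd_self hne]; ring
              · by_cases ha2 : a = inv z
                · exact absurd ⟨ha2, hb, hb2⟩ h2
                · rw [dd_other ha ha2]; ring
        by_cases h1 : (a = x ∧ b ≠ x ∧ b ≠ inv x) ∨ (b = inv x ∧ a ≠ x ∧ a ≠ inv x)
        · rw [hz' a b, zero_mul]
          · rintro ⟨hb, ha, ha'⟩
            rcases h1 with ⟨h3, -, -⟩ | ⟨h3, -, -⟩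
            · exact h (Or.inl ⟨h3, hb⟩)
            · exact hixz (h3.symm.trans hb)
          · rintro ⟨ha, hb, hb'⟩
            rcases h1 with ⟨h3, -, -⟩ | ⟨h3, -, -⟩
            · exact hxz' (h3.symm.trans ha)
            · exact h (Or.inr ⟨ha, h3⟩)
        · rw [not_or] at h1
          rw [hx a b h1.1 h1.2, zero_mul, mul_zero]
    -- the relation given by the symplectic form
    have hrel : e.repr (Y (e x)) z * jj z + e.repr (Y (e (inv z))) (inv x) * jj x = 0 := by
      have h1 := hsp Y hY (e x) (e (inv z))
      have h2 : ω (Y (e x)) (e (inv z)) = e.repr (Y (e x)) z * jj z := by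
        conv_lhs => rw [← e.sum_repr (Y (e x))]
        rw [map_sum, LinearMap.sum_apply, Finset.sum_eq_single z]
        · rw [map_smul, LinearMap.smul_apply, hω, smul_eq_mul]
          unfold JJ
          rw [if_pos rfl]
        · intro b _ hb
          rw [map_smul, LinearMap.smul_apply, hω]
          unfold JJ
          rw [if_neg, smul_zero]
          intro h3
          exact hb (by rw [← hinv b, ← h3, hinv])
        · intro h3
          exact absurd (Finset.mem_univ _) h3
      have h3 : ω (e x) (Y (e (inv z))) = e.repr (Y (e (inv z))) (inv x) * jj x := by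
        conv_lhs => rw [← e.sum_repr (Y (e (inv z)))]
        rw [map_sum, Finset.sum_eq_single (inv x)]
        · rw [map_smul, hω, smul_eq_mul]
          unfold JJ
          rw [if_pos rfl]
        · intro b _ hb
          rw [map_smul, hω]
          unfold JJ
          rw [if_neg hb, smul_zero]
        · intro h3
          exact absurd (Finset.mem_univ _) h3
      rw [← h2, ← h3]
      exact h1
    have h1 : SS ω (e (inv x)) (e z) = (jj (inv x) / (36 * e.repr (X (e x)) z)) • Y := by
      refine e.ext fun a => e.repr.injective (Finsupp.ext fun b => ?_)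
      rw [LinearMap.smul_apply, map_smul, Finsupp.smul_apply, SS_repr e ω hω, smul_eq_mul]
      have hYxz : e.repr (Y (e x)) z = 36 * e.repr (X (e x)) z := by
        rw [hval, if_pos (Or.inl ⟨rfl, rfl⟩)]
      by_cases ha : a = x
      · subst ha
        have h2 : JJ inv jj (inv a) a = jj (inv a) := by
          unfold JJ
          rw [if_pos (hinv a).symm]
        have h3 : JJ inv jj z a = 0 := by
          unfold JJ
          rw [if_neg hxz']
        rw [h2, h3, zero_mul, add_zero]
        by_cases hb : z = b
        · subst hb
          rw [if_pos rfl, hYxz]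
          field_simp
        · rw [if_neg hb, hval, if_neg, mul_zero, mul_zero]
          rintro (⟨-, h4⟩ | ⟨h4, -⟩)
          · exact hb h4.symm
          · exact hxz' h4
      · have h2 : JJ inv jj (inv x) a = 0 := by
          unfold JJ
          rw [hinv, if_neg ha]
        rw [h2, zero_mul, zero_add]
        by_cases ha2 : a = inv z
        · subst ha2
          have h3 : JJ inv jj z (inv z) = jj z := by
            unfold JJ
            rw [if_pos rfl]
          rw [h3]
          by_cases hb : inv x = b
          · subst hb
            rw [if_pos rfl, hjj]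
            have h4 : e.repr (Y (e (inv z))) (inv x) = -(36 * e.repr (X (e x)) z * jj z / jj x) := by
              rw [hYxz] at hrel
              have := hj0 x
              field_simp
              linear_combination hrel
            rw [h4]
            have := hj0 x
            field_simp
          · rw [if_neg hb, hval, if_neg, mul_zero, mul_zero]
            rintro (⟨h4, -⟩ | ⟨-, h4⟩)
            · exact hizx h4
            · exact hb h4.symm
        · have h3 : JJ inv jj z a = 0 := by
            unfold JJ
            rw [if_neg ha2]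
          rw [h3, zero_mul, hval, if_neg, mul_zero]
          rintro (⟨h4, -⟩ | ⟨h4, -⟩)
          · exact ha h4
          · exact ha2 h4
    rw [h1]
    exact Submodule.smul_mem _ _ hY

include hbr hD hinv hne hjj hj0 hω hsp in
theorem root_trans {x z w : R} (hxz : x ≠ z) (hzw : z ≠ w) (hxw : x ≠ w)
    (h1 : SS ω (e (inv x)) (e z) ∈ 𝔤) (h2 : SS ω (e (inv z)) (e w) ∈ 𝔤) :
    SS ω (e (inv x)) (e w) ∈ 𝔤 := by
  refine root_mem e 𝔤 hbr hD hinv hne hjj hj0 ω hω hsp (hbr _ h2 _ h1) hxw ?_
  have hA : SS ω (e (inv x)) (e z) (e x) = jj (inv x) • e z + JJ inv jj z x • e (inv x) := by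
    rw [SS_apply, hω, hω]
    congr 2
    unfold JJ
    rw [if_pos (hinv x).symm]
  have hB : ∀ v, (SS ω (e (inv z)) (e w) * SS ω (e (inv x)) (e z) -
      SS ω (e (inv x)) (e z) * SS ω (e (inv z)) (e w)) v =
      SS ω (e (inv z)) (e w) (SS ω (e (inv x)) (e z) v) -
      SS ω (e (inv x)) (e z) (SS ω (e (inv z)) (e w) v) := fun v => rfl
  rw [hB, hA, map_add, map_smul, map_smul]
  have hC : SS ω (e (inv z)) (e w) (e x) = JJ inv jj w x • e (inv z) := by
    rw [SS_apply, hω, hω]
    have h3 : JJ inv jj (inv z) x = 0 := by
      unfold JJ
      rw [hinv, if_neg hxz]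
    rw [h3, zero_smul, zero_add]
  rw [hC, map_smul, map_sub, map_add, map_smul, map_smul, map_smul, Finsupp.sub_apply,
    Finsupp.add_apply, Finsupp.smul_apply, Finsupp.smul_apply, Finsupp.smul_apply,
    SS_repr e ω hω, SS_repr e ω hω, SS_repr e ω hω]
  have e1 : JJ inv jj (inv z) z = jj (inv z) := by
    unfold JJ
    rw [if_pos (hinv z).symm]
  have e2 : JJ inv jj z (inv z) = jj z := by
    unfold JJ
    rw [if_pos rfl]
  rw [e1, e2, if_pos rfl, if_neg hzw]
  simp only [JJ, smul_eq_mul]
  have hjz := hj0 z
  have hjx := hj0 x
  have hjjx := hjj x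
  have hjjz := hjj z
  by_cases c1 : x = inv z
  · -- then `inv x = z`
    have c1' : inv x = z := by rw [c1, hinv]
    by_cases c2 : inv z = w
    · exact absurd (c1.trans c2) hxw
    · have c3 : ¬ z = inv w := fun h => c2 (by rw [h, hinv])
      have c4 : ¬ x = inv w := fun h => hzw (by rw [← hinv w, ← h, c1'])
      simp only [c1', c2, c4, if_false, if_true, if_pos c1, hinv]
      rw [hjjz]
      simp
      exact hjz
  · by_cases c2 : inv z = w
    · subst c2
      have h3 : ¬ x = inv (inv z) := by
        rw [hinv]
        exact hxz
      rw [if_pos (hinv z).symm, if_pos rfl, if_neg c1, if_neg h3, zero_mul, zero_mul, add_zero,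
        sub_zero, hjjx, hjjz]
      have h4 : -jj x * (-jj z * 1 + -jj z * 1) = 2 * (jj x * jj z) := by ring
      rw [h4]
      exact mul_ne_zero two_ne_zero (mul_ne_zero hjx hjz)
    · have c3 : ¬ z = inv w := fun h => c2 (by rw [h, hinv])
      by_cases c4 : x = inv w
      · have c5 : inv x = w := by rw [c4, hinv]
        subst c5
        rw [if_neg c3, if_neg c1, if_pos c4, if_pos rfl, zero_mul, zero_mul, add_zero, add_zero,
          mul_zero, zero_add, hjjx, hjjz]
        have h4 : -jj x * (-jj z * 1) - -jj x * (jj z * 1) = 2 * (jj x * jj z) := by ring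
        rw [h4]
        exact mul_ne_zero two_ne_zero (mul_ne_zero hjx hjz)
      · simp only [c1, c2, c3, c4, if_false]
        rw [hjjx, hjjz]
        ring_nf
        exact mul_ne_zero hjx hjz

end

end Pool.Agent.H204R3.SP
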