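import Mathlib
import Pool.Agent.H86.CMLib.H204R3.SP.Full

/-!
# Irreducibility under all subgroups of finite index gives the full symplectic Lie algebra
-/

set_option linter.unusedSectionVars false

namespace Pool.Agent.H204R3.SP

open Module

noncomputable section

variable {Ω : Type*} [Field Ω] [CharZero Ω] {V : Type*} [AddCommGroup V] [Module Ω V]
  {R : Type*} [Fintype R] [DecidableEq R] (e : Basis R Ω V) {inv : R → R} {jj : R → Ω}
  (𝔤 : Submodule Ω (Module.End Ω V))
  (hbr : ∀ X ∈ 𝔤, ∀ Y ∈ 𝔤, X * Y - Y * X ∈ 𝔤)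
  (hD : ∀ y, DD e inv y ∈ 𝔤)
  (hinv : ∀ x, inv (inv x) = x) (hne : ∀ x, inv x ≠ x)
  (hjj : ∀ x, jj (inv x) = -jj x) (hj0 : ∀ x, jj x ≠ 0)
  (ω : V →ₗ[Ω] V →ₗ[Ω] Ω) (hω : ∀ x y, ω (e x) (e y) = JJ inv jj x y)
  (hsp : ∀ X ∈ 𝔤, ∀ u w, ω (X u) w + ω u (X w) = 0)

include hD hne in
/-- Stable subspaces are spanned by basis vectors. -/
theorem basis_mem (U : Submodule Ω V) (hU : ∀ X ∈ 𝔤, ∀ u ∈ U, X u ∈ U) {v : V} (hv : v ∈ U)
    {z : R} (hz : e.repr v z ≠ 0) : e z ∈ U := by
  have h1 : DD e inv z (DD e inv z v) + DD e inv z v ∈ U :=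
    Submodule.add_mem _ (hU _ (hD z) _ (hU _ (hD z) _ hv)) (hU _ (hD z) _ hv)
  have h2 : DD e inv z (DD e inv z v) + DD e inv z v = (2 * e.repr v z) • e z := by
    refine e.repr.injective (Finsupp.ext fun b => ?_)
    rw [map_add, Finsupp.add_apply, DD_repr, DD_repr, map_smul, Finsupp.smul_apply, e.repr_self,
      Finsupp.single_apply, smul_eq_mul]
    by_cases hb : b = z
    · subst hb
      rw [dd_self hne, if_pos rfl]
      ring
    · rw [if_neg (Ne.symm hb)]
      by_cases hb2 : b = inv z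
      · subst hb2
        rw [dd_inv hne]
        ring
      · rw [dd_other hb hb2]
        ring
  rw [h2] at h1
  have h3 := Submodule.smul_mem _ (2 * e.repr v z)⁻¹ h1
  rwa [smul_smul, inv_mul_cancel₀ (mul_ne_zero two_ne_zero hz), one_smul] at h3

include hD hne in
theorem eq_span (U : Submodule Ω V) (hU : ∀ X ∈ 𝔤, ∀ u ∈ U, X u ∈ U) :
    U = Submodule.span Ω (e '' {z | e z ∈ U}) := by
  apply le_antisymm
  · intro v hv
    rw [e.mem_span_image]
    intro z hz
    rw [Finset.mem_coe, Finsupp.mem_support_iff] at hz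
    exact basis_mem e 𝔤 hD hne U hU hv hz
  · rw [Submodule.span_le]
    rintro _ ⟨z, hz, rfl⟩
    exact hz

/-- The indices that can be reached from `x`. -/
def CC (inv : R → R) (x : R) : Set R := {z | z = x ∨ SS ω (e (inv x)) (e z) ∈ 𝔤}

include hbr hD hinv hne hjj hj0 hω hsp in
theorem CC_step {x z b : R} (hz : z ∈ CC e 𝔤 ω inv x) {X : Module.End Ω V} (hX : X ∈ 𝔤)
    (hc : e.repr (X (e z)) b ≠ 0) : b ∈ CC e 𝔤 ω inv x := by
  by_cases hbx : b = x
  · exact Or.inl hbx
  by_cases hbz : b = z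
  · rw [hbz]
    exact hz
  have h1 := root_mem e 𝔤 hbr hD hinv hne hjj hj0 ω hω hsp hX (Ne.symm hbz) hc
  rcases hz with hz | hz
  · subst hz
    exact Or.inr h1
  · by_cases hxz : x = z
    · subst hxz
      exact Or.inr h1
    · exact Or.inr (root_trans e 𝔤 hbr hD hinv hne hjj hj0 ω hω hsp hxz (Ne.symm hbz)
        (Ne.symm hbx) hz h1)

include hbr hD hinv hne hjj hj0 hω hsp in
theorem UU_stable (x : R) : ∀ X ∈ 𝔤, ∀ u ∈ Submodule.span Ω (e '' CC e 𝔤 ω inv x),
    X u ∈ Submodule.span Ω (e '' CC e 𝔤 ω inv x) := by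
  intro X hX u hu
  induction hu using Submodule.span_induction with
  | mem u hu =>
    obtain ⟨z, hz, rfl⟩ := hu
    rw [e.mem_span_image]
    intro b hb
    rw [Finset.mem_coe, Finsupp.mem_support_iff] at hb
    exact CC_step e 𝔤 hbr hD hinv hne hjj hj0 ω hω hsp hz hX hb
  | zero => rw [map_zero]; exact Submodule.zero_mem _
  | add a b _ _ ha hb => rw [map_add]; exact Submodule.add_mem _ ha hb
  | smul c a _ ha => rw [map_smul]; exact Submodule.smul_mem _ _ ha

variable {Γ : Type*} [Group Γ] (ρ : Representation Ω Γ V)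
  (hconj : ∀ (s : Γ) (X : Module.End Ω V), X ∈ 𝔤 → ρ s * X * ρ s⁻¹ ∈ 𝔤)
  (hirr : ∀ Δ : Subgroup Γ, Δ.FiniteIndex → ∀ U : Submodule Ω V,
    (∀ s ∈ Δ, ∀ u ∈ U, ρ s u ∈ U) → U = ⊥ ∨ U = ⊤)

include hconj in
theorem map_stable (U : Submodule Ω V) (hU : ∀ X ∈ 𝔤, ∀ u ∈ U, X u ∈ U) (s : Γ) :
    ∀ X ∈ 𝔤, ∀ u ∈ U.map (ρ s), X u ∈ U.map (ρ s) := by
  rintro X hX _ ⟨u, hu, rfl⟩
  refine ⟨(ρ s⁻¹ * X * ρ s⁻¹⁻¹) u, hU _ (hconj s⁻¹ X hX) u hu, ?_⟩
  rw [inv_inv, Module.End.mul_apply, Module.End.mul_apply, rho_inv']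

include hbr hD hinv hne hjj hj0 hω hsp hconj hirr in
theorem UU_top (x : R) : Submodule.span Ω (e '' CC e 𝔤 ω inv x) = ⊤ := by
  set U := Submodule.span Ω (e '' CC e 𝔤 ω inv x) with hUdef
  have hU : ∀ X ∈ 𝔤, ∀ u ∈ U, X u ∈ U := UU_stable e 𝔤 hbr hD hinv hne hjj hj0 ω hω hsp x
  have hmm : ∀ s t : Γ, U.map (ρ (s * t)) = (U.map (ρ t)).map (ρ s) := by
    intro s t
    rw [map_mul]
    exact Submodule.map_comp (ρ t) (ρ s) U
  have hm1 : U.map (ρ (1 : Γ)) = U := by
    rw [map_one]
    exact Submodule.map_id U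
  let Δ : Subgroup Γ :=
    { carrier := {s | U.map (ρ s) = U}
      one_mem' := hm1
      mul_mem' := by
        intro s t hs ht
        change U.map (ρ (s * t)) = U
        rw [hmm, show U.map (ρ t) = U from ht, show U.map (ρ s) = U from hs]
      inv_mem' := by
        intro s hs
        change U.map (ρ s⁻¹) = U
        conv_lhs => rw [← show U.map (ρ s) = U from hs]
        rw [← hmm, inv_mul_cancel, hm1] }
  have hΔ : Δ.FiniteIndex := by
    let g : Γ → Set R := fun s => {z | e z ∈ U.map (ρ s)}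
    have hg : ∀ s t, g s = g t → U.map (ρ s) = U.map (ρ t) := by
      intro s t h
      rw [eq_span e 𝔤 hD hne (U.map (ρ s)) (map_stable 𝔤 ρ hconj U hU s),
        eq_span e 𝔤 hD hne (U.map (ρ t)) (map_stable 𝔤 ρ hconj U hU t)]
      change Submodule.span Ω (e '' g s) = Submodule.span Ω (e '' g t)
      rw [h]
    have hinj : Function.Injective (fun q : Γ ⧸ Δ => g q.out) := by
      intro q q' h
      have h1 := hg _ _ h
      have h2 : (q.out)⁻¹ * q'.out ∈ Δ := by
        change U.map (ρ ((q.out)⁻¹ * q'.out)) = U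
        rw [hmm, ← h1, ← hmm, inv_mul_cancel, hm1]
      rw [← QuotientGroup.out_eq' q, ← QuotientGroup.out_eq' q']
      exact QuotientGroup.eq.2 h2
    have _ : Finite (Γ ⧸ Δ) := Finite.of_injective _ hinj
    exact Subgroup.finiteIndex_of_finite_quotient
  rcases hirr Δ hΔ U (fun s hs u hu => by
    have h1 : U.map (ρ s) = U := hs
    rw [← h1]
    exact ⟨u, hu, rfl⟩) with h | h
  · exfalso
    have h1 : e x ∈ U := Submodule.subset_span ⟨x, Or.inl rfl, rfl⟩
    rw [h, Submodule.mem_bot] at h1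
    exact e.ne_zero x h1
  · exact h

include hbr hD hinv hne hjj hj0 hω hsp hconj hirr in
/-- All the generators of the symplectic Lie algebra are in `𝔤`. -/
theorem SS_mem (a b : R) : SS ω (e a) (e b) ∈ 𝔤 := by
  by_cases hb : b = inv a
  · subst hb
    have h1 : SS ω (e a) (e (inv a)) = (-jj a) • DD e inv a := by
      refine e.ext fun c => e.repr.injective (Finsupp.ext fun d => ?_)
      rw [LinearMap.smul_apply, map_smul, Finsupp.smul_apply, SS_repr e ω hω, DD_repr, e.repr_self,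
        Finsupp.single_apply, smul_eq_mul]
      unfold JJ
      rw [hinv]
      by_cases hc : c = a
      · subst hc
        rw [if_neg (fun h => hne c h.symm), if_pos rfl, hjj]
        by_cases hd : c = d
        · subst hd
          rw [if_neg (hne c), if_pos rfl, dd_self hne]
          ring
        · rw [if_neg hd]
          ring
      · rw [if_neg hc]
        by_cases hc2 : c = inv a
        · subst hc2
          rw [if_pos rfl]
          by_cases hd : inv a = d
          · subst hd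
            rw [if_pos rfl, dd_inv hne]
            ring
          · rw [if_neg hd]
            ring
        · rw [if_neg hc2]
          by_cases hd : c = d
          · subst hd
            rw [dd_other hc hc2]
            ring
          · rw [if_neg hd]
            ring
    rw [h1]
    exact Submodule.smul_mem _ _ (hD a)
  · have h1 := UU_top e 𝔤 hbr hD hinv hne hjj hj0 ω hω hsp ρ hconj hirr (inv a)
    have h2 : e b ∈ Submodule.span Ω (e '' CC e 𝔤 ω inv (inv a)) := by rw [h1]; trivial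
    rw [e.mem_span_image, e.repr_self] at h2
    have h3 : b ∈ CC e 𝔤 ω inv (inv a) := h2 (by
      rw [Finset.mem_coe, Finsupp.mem_support_iff, Finsupp.single_eq_same]
      exact one_ne_zero)
    rcases h3 with h3 | h3
    · exact absurd h3 hb
    · rwa [hinv] at h3

end

end Pool.Agent.H204R3.SP
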