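import Mathlib
import Pool.Agent.H86.CMLib.H204R3.CM.Alt

/-!
# Alternating forms in the span of products of bilinear forms
-/

set_option linter.unusedSectionVars false

namespace Pool.Agent.H204R3.SP

open Equiv Pool.Agent.H204R3.CM

noncomputable section

variable {R W : Type*} [Field R] [CharZero R] [AddCommGroup W] [Module R W] {m : ℕ}

/-- An alternating form which is a linear combination of products of bilinear forms from a set is
a linear combination of wedge products of the alternations of these bilinear forms. -/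
theorem alt_span (BB : Set (MultilinearMap R (fun _ : Fin 2 => W) R))
    (f : W [⋀^Fin m × Fin 2]→ₗ[R] R)
    (hf : (fun v => f v) ∈ Submodule.span R {g : (Fin m × Fin 2 → W) → R |
      ∃ (e : Perm (Fin m × Fin 2)) (B : Fin m → MultilinearMap R (fun _ : Fin 2 => W) R),
        (∀ s, B s ∈ BB) ∧ g = fun v => ∏ s, B s (fun ε => v (e (s, ε)))}) :
    f ∈ Submodule.span R {g : W [⋀^Fin m × Fin 2]→ₗ[R] R |
      ∃ B : Fin m → MultilinearMap R (fun _ : Fin 2 => W) R, (∀ s, B s ∈ BB) ∧
        ∀ v, g v = ∑ σ : Perm (Fin m × Fin 2), ((Perm.sign σ : ℤ) : R) *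
          ∏ s, (MultilinearMap.alternatization (B s)) ![v (σ (s, 0)), v (σ (s, 1))]} := by
  classical
  set PS : Set ((Fin m × Fin 2 → W) → R) := {g : (Fin m × Fin 2 → W) → R |
      ∃ (e : Perm (Fin m × Fin 2)) (B : Fin m → MultilinearMap R (fun _ : Fin 2 => W) R),
        (∀ s, B s ∈ BB) ∧ g = fun v => ∏ s, B s (fun ε => v (e (s, ε)))} with hPS
  have hA : altFun (R := R) (fun v => f v) ∈
      Submodule.map (altFun (R := R)) (Submodule.span R PS) :=
    Submodule.mem_map_of_mem hf
  rw [Submodule.map_span, altFun_alt] at hA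
  let K : (W [⋀^Fin m × Fin 2]→ₗ[R] R) →ₗ[R] ((Fin m × Fin 2 → W) → R) :=
    { toFun := fun g v => g v
      map_add' := fun _ _ => rfl
      map_smul' := fun _ _ => rfl }
  have hKinj : Function.Injective K := fun g g' h => AlternatingMap.ext fun v => congrFun h v
  set TT : Set (W [⋀^Fin m × Fin 2]→ₗ[R] R) :=
    {g | ∃ B : Fin m → MultilinearMap R (fun _ : Fin 2 => W) R, (∀ s, B s ∈ BB) ∧
        ∀ v, g v = ∑ σ : Perm (Fin m × Fin 2), ((Perm.sign σ : ℤ) : R) *
          ∏ s, (MultilinearMap.alternatization (B s)) ![v (σ (s, 0)), v (σ (s, 1))]} with hTT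
  have hsub : altFun (R := R) '' PS ⊆ (Submodule.span R TT).map K := by
    rintro _ ⟨_, ⟨e, B, hB, rfl⟩, rfl⟩
    let A : Fin m → W [⋀^Fin 2]→ₗ[R] R := fun s => MultilinearMap.alternatization (B s)
    let g : W [⋀^Fin m × Fin 2]→ₗ[R] R :=
      MultilinearMap.alternatization (prodMap (fun s => (A s).toMultilinearMap))
    have hg : ∀ v, g v = ∑ σ : Perm (Fin m × Fin 2), ((Perm.sign σ : ℤ) : R) *
        ∏ s, A s (fun ε => v (σ (s, ε))) := by
      intro v
      change MultilinearMap.alternatization _ v = _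
      rw [MultilinearMap.alternatization_apply]
      refine Finset.sum_congr rfl fun σ _ => ?_
      rw [Units.smul_def, zsmul_eq_mul]
      rfl
    have hgT : g ∈ TT := by
      refine ⟨B, hB, fun v => ?_⟩
      rw [hg v]
      refine Finset.sum_congr rfl fun σ _ => ?_
      congr 1
      refine Finset.prod_congr rfl fun s _ => ?_
      congr 1
      funext ε
      fin_cases ε <;> rfl
    refine ⟨(((Perm.sign e : ℤ) : R) / 2 ^ m) • g,
      Submodule.smul_mem _ _ (Submodule.subset_span hgT), ?_⟩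
    rw [map_smul]
    funext v
    have h2 : (K g) v = (2 : R) ^ m * ∑ σ : Perm (Fin m × Fin 2), ((Perm.sign σ : ℤ) : R) *
        ∏ s, B s (fun ε => v (σ (s, ε))) := by
      change g v = _
      rw [hg v]
      exact alt_prod B v
    rw [Pi.smul_apply, h2, smul_eq_mul]
    have h3 : altFun (R := R) (fun v => ∏ s, B s (fun ε => v (e (s, ε)))) v =
        ((Perm.sign e : ℤ) : R) * ∑ σ : Perm (Fin m × Fin 2), ((Perm.sign σ : ℤ) : R) *
          ∏ s, B s (fun ε => v (σ (s, ε))) := by
      change ∑ σ : Perm (Fin m × Fin 2), ((Perm.sign σ : ℤ) : R) *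
        ∏ s, B s (fun ε => v (σ (e (s, ε)))) = _
      rw [Finset.mul_sum]
      refine Fintype.sum_equiv (Equiv.mulRight e) _ _ fun σ => ?_
      rw [Equiv.coe_mulRight, map_mul, Units.val_mul, Int.cast_mul]
      have h4 : ((Perm.sign e : ℤ) : R) * ((Perm.sign e : ℤ) : R) = 1 := by
        rw [← Int.cast_mul, ← Units.val_mul, Int.units_mul_self, Units.val_one, Int.cast_one]
      have h5 : ∏ s, B s (fun ε => v (σ (e (s, ε)))) = ∏ s, B s (fun ε => v ((σ * e) (s, ε))) := rfl
      rw [h5]
      linear_combination -(((Perm.sign σ : ℤ) : R) * ∏ s, B s (fun ε => v ((σ * e) (s, ε)))) * h4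
    rw [h3]
    have h6 : (2 : R) ^ m ≠ 0 := pow_ne_zero _ two_ne_zero
    field_simp
  have h1 : ((Fintype.card (Fin m × Fin 2)).factorial : R) • (fun v => f v) ∈
      (Submodule.span R TT).map K := Submodule.span_le.2 hsub hA
  have hne : ((Fintype.card (Fin m × Fin 2)).factorial : R) ≠ 0 :=
    Nat.cast_ne_zero.2 (Nat.factorial_ne_zero _)
  have h2 : (fun v => f v) ∈ (Submodule.span R TT).map K := by
    have h3 := Submodule.smul_mem _ (((Fintype.card (Fin m × Fin 2)).factorial : R))⁻¹ h1
    rwa [smul_smul, inv_mul_cancel₀ hne, one_smul] at h3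
  obtain ⟨f', hf', hff⟩ := h2
  have h3 : f' = f := hKinj hff
  rw [← h3]
  exact hf'

end

end Pool.Agent.H204R3.SP
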