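import Mathlib
import Pool.Agent.H86.CMLib.H204R3.SP.Irr
import Pool.Agent.H86.CMLib.H204R3.SP.AltSpan

/-!
# Tate forms are generated by the symplectic form
-/

set_option linter.unusedSectionVars false

namespace Pool.Agent.H204R3.SP

open Module Pool.Agent.H204R3.CM

noncomputable section

variable {Ω : Type*} [Field Ω] [CharZero Ω] {V : Type*} [AddCommGroup V] [Module Ω V]
  {R : Type*} [Fintype R] [DecidableEq R] (e : Basis R Ω V) {inv : R → R} {jj : R → Ω}
  (hinv : ∀ x, inv (inv x) = x) (hne : ∀ x, inv x ≠ x)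
  (hjj : ∀ x, jj (inv x) = -jj x) (hj0 : ∀ x, jj x ≠ 0)
  (ω : V →ₗ[Ω] V →ₗ[Ω] Ω) (hω : ∀ x y, ω (e x) (e y) = JJ inv jj x y)
  {Γ : Type*} [Group Γ] (ρ : Representation Ω Γ V) (χ : Γ →* Ω)

/-- Killing can be checked on basis vectors. -/
theorem kills_of_basis {κ : Type*} [Fintype κ] [DecidableEq κ] (X : Module.End Ω V)
    (φ : MultilinearMap Ω (fun _ : κ => V) Ω)
    (h : ∀ I : κ → R, ∑ k, φ (Function.update (fun l => e (I l)) k (X (e (I k)))) = 0) :
    Kills X φ := by
  let D : MultilinearMap Ω (fun _ : κ => V) Ω :=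
    ∑ k, φ.compLinearMap (fun l => if l = k then X else LinearMap.id)
  have hD : ∀ v, D v = ∑ k, φ (Function.update v k (X (v k))) := by
    intro v
    change (∑ k, φ.compLinearMap (fun l => if l = k then X else LinearMap.id)) v = _
    rw [MultilinearMap.sum_apply]
    refine Finset.sum_congr rfl fun k _ => ?_
    rw [MultilinearMap.compLinearMap_apply]
    congr 1
    funext l
    by_cases hl : l = k
    · subst hl
      rw [Function.update_self, if_pos rfl]
    · rw [Function.update_of_ne hl, if_neg hl]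
      rfl
  have h0 : D = 0 := by
    refine Basis.ext_multilinear (fun _ => e) fun I => ?_
    rw [hD, MultilinearMap.zero_apply]
    exact h I
  intro v
  rw [← hD, h0, MultilinearMap.zero_apply]

theorem DD_mem (inv : R → R)
    (hbal : ∀ (m : ℕ) (φ : MultilinearMap Ω (fun _ : Fin m × Fin 2 => V) Ω), IsTate ρ χ m φ →
      ∀ I : Fin m × Fin 2 → R, φ (fun k => e (I k)) ≠ 0 → ∀ y,
        (Finset.univ.filter (fun k => I k = y)).card =
          (Finset.univ.filter (fun k => I k = inv y)).card) (y : R) :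
    DD e inv y ∈ lieT ρ χ := by
  intro m φ hφ
  refine kills_of_basis e _ _ fun I => ?_
  have h1 : ∀ k, φ (Function.update (fun l => e (I l)) k (DD e inv y (e (I k)))) =
      dd inv y (I k) * φ (fun l => e (I l)) := by
    intro k
    rw [DD_basis, MultilinearMap.map_update_smul, smul_eq_mul]
    congr 2
    exact Function.update_eq_self k (fun l => e (I l))
  rw [Finset.sum_congr rfl (fun k _ => h1 k), ← Finset.sum_mul]
  by_cases h0 : φ (fun l => e (I l)) = 0
  · rw [h0, mul_zero]
  · have h2 := hbal m φ hφ I h0 y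
    have h3 : ∑ k, (dd inv y (I k) : Ω) = 0 := by
      unfold dd
      rw [Finset.sum_sub_distrib, Finset.sum_boole, Finset.sum_boole, h2, sub_self]
    rw [h3, zero_mul]

/-- The product of the symplectic form over a matching, as a multilinear map. -/
def mm {m : ℕ} (σ : Equiv.Perm (Fin m × Fin 2)) : MultilinearMap Ω (fun _ : Fin m × Fin 2 => V) Ω :=
  (prodMap (fun _ : Fin m => bil2 ω)).domDomCongr σ

theorem mm_apply {m : ℕ} (σ : Equiv.Perm (Fin m × Fin 2)) (v : Fin m × Fin 2 → V) :
    mm ω σ v = ∏ s, ω (v (σ (s, 0))) (v (σ (s, 1))) := rfl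

include hinv hne hjj hj0 hω in
theorem tate_mem
    (hωρ : ∀ s u v, ω (ρ s u) (ρ s v) = χ s * ω u v)
    (hirr : ∀ Δ : Subgroup Γ, Δ.FiniteIndex → ∀ U : Submodule Ω V,
      (∀ s ∈ Δ, ∀ u ∈ U, ρ s u ∈ U) → U = ⊥ ∨ U = ⊤)
    (hbal : ∀ (m : ℕ) (φ : MultilinearMap Ω (fun _ : Fin m × Fin 2 => V) Ω), IsTate ρ χ m φ →
      ∀ I : Fin m × Fin 2 → R, φ (fun k => e (I k)) ≠ 0 → ∀ y,
        (Finset.univ.filter (fun k => I k = y)).card =
          (Finset.univ.filter (fun k => I k = inv y)).card)
    {m : ℕ} (φ : MultilinearMap Ω (fun _ : Fin m × Fin 2 => V) Ω) (hφ : IsTate ρ χ m φ) :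
    φ ∈ Submodule.span Ω (Set.range (mm ω (m := m))) := by
  let coef : MultilinearMap Ω (fun _ : Fin m × Fin 2 => V) Ω →ₗ[Ω] ((Fin m × Fin 2 → R) → Ω) :=
    { toFun := fun φ I => φ (fun k => e (I k))
      map_add' := fun _ _ => rfl
      map_smul' := fun _ _ => rfl }
  have hinj : Function.Injective coef := fun φ φ' h =>
    Basis.ext_multilinear (fun _ => e) fun I => congrFun h I
  have h1 : coef φ ∈ InvF inv jj (Fin m × Fin 2) := by
    intro b c I
    have h2 : SS ω (e b) (e c) ∈ lieT ρ χ :=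
      SS_mem e (lieT ρ χ) (fun X hX Y hY => lieT_bracket ρ χ hX hY)
        (DD_mem e ρ χ inv hbal) hinv hne hjj hj0 ω hω
        (fun X hX u w => lieT_sp ρ χ ω hωρ hX u w) ρ (fun s X hX => lieT_conj ρ χ s hX) hirr b c
    have h3 := h2 m φ hφ (fun k => e (I k))
    rw [← h3]
    refine Finset.sum_congr rfl fun k _ => ?_
    rw [SS_apply, hω, hω, MultilinearMap.map_update_add, MultilinearMap.map_update_smul,
      MultilinearMap.map_update_smul, smul_eq_mul, smul_eq_mul]
    have h4 : ∀ z : R, coef φ (Function.update I k z) =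
        φ (Function.update (fun k => e (I k)) k (e z)) := by
      intro z
      change φ (fun l => e (Function.update I k z l)) = _
      congr 1
      funext l
      by_cases hl : l = k
      · subst hl
        rw [Function.update_self, Function.update_self]
      · rw [Function.update_of_ne hl, Function.update_of_ne hl]
    rw [h4, h4]
  have h2 := fft hinv hjj hj0 m (Fin m × Fin 2) (by simp [mul_comm]) h1
  have h3 : MatF inv jj (Fin m × Fin 2) m ≤
      (Submodule.span Ω (Set.range (mm ω (m := m)))).map coef := by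
    unfold MatF
    rw [Submodule.span_le]
    rintro _ ⟨σ, rfl⟩
    refine ⟨mm ω σ, Submodule.subset_span ⟨σ, rfl⟩, ?_⟩
    funext I
    change mm ω σ (fun k => e (I k)) = _
    rw [mm_apply]
    exact Finset.prod_congr rfl fun s _ => hω _ _
  obtain ⟨φ', hφ', hφφ⟩ := h3 h2
  rw [← hinj hφφ]
  exact hφ'

end

/-- Alternating forms on `V ^ n`: if all Tate forms on `V` are combinations of products of the
symplectic form, all alternating Tate forms on `V ^ n` are generated in degree two. -/
theorem alt_of_tate_mem {Ω : Type*} [Field Ω] [CharZero Ω] {V : Type*} [AddCommGroup V]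
    [Module Ω V] (ω : V →ₗ[Ω] V →ₗ[Ω] Ω) {Γ : Type*} [Group Γ] (ρ : Representation Ω Γ V)
    (χ : Γ →* Ω) (hωρ : ∀ s u v, ω (ρ s u) (ρ s v) = χ s * ω u v)
    {n m : ℕ} (hall : ∀ φ : MultilinearMap Ω (fun _ : Fin m × Fin 2 => V) Ω, IsTate ρ χ m φ →
      φ ∈ Submodule.span Ω (Set.range (mm ω (m := m))))
    (f : (Fin n → V) [⋀^Fin m × Fin 2]→ₗ[Ω] Ω)
    (Δ : Subgroup Γ) (hΔ : Δ.FiniteIndex)
    (hf : ∀ s ∈ Δ, ∀ v : Fin m × Fin 2 → Fin n → V,
      f (fun k i => ρ s (v k i)) = χ s ^ m * f v) :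
    f ∈ Submodule.span Ω {g : (Fin n → V) [⋀^Fin m × Fin 2]→ₗ[Ω] Ω |
      ∃ B : Fin m → (Fin n → V) [⋀^Fin 2]→ₗ[Ω] Ω,
        (∀ l (s : Γ) (v : Fin 2 → Fin n → V), B l (fun ε i => ρ s (v ε i)) = χ s * B l v) ∧
        ∀ v, g v = ∑ σ : Equiv.Perm (Fin m × Fin 2), ((Equiv.Perm.sign σ : ℤ) : Ω) *
          ∏ l, B l ![v (σ (l, 0)), v (σ (l, 1))]} := by
  classical
  -- the invariant bilinear forms
  let BB : Set (MultilinearMap Ω (fun _ : Fin 2 => Fin n → V) Ω) :=
    {B | ∀ (s : Γ) (v : Fin 2 → Fin n → V), B (fun ε i => ρ s (v ε i)) = χ s * B v}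
  have hmem : (fun v => f v) ∈ Submodule.span Ω {g : (Fin m × Fin 2 → Fin n → V) → Ω |
      ∃ (e : Equiv.Perm (Fin m × Fin 2))
        (B : Fin m → MultilinearMap Ω (fun _ : Fin 2 => Fin n → V) Ω),
        (∀ s, B s ∈ BB) ∧ g = fun v => ∏ s, B s (fun ε => v (e (s, ε)))} := by
    -- components
    let fc : (Fin m × Fin 2 → Fin n) → MultilinearMap Ω (fun _ : Fin m × Fin 2 => V) Ω := fun c =>
      f.toMultilinearMap.compLinearMap (fun l => LinearMap.single Ω (fun _ : Fin n => V) (c l))
    have hfc : ∀ c, IsTate ρ χ m (fc c) := by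
      intro c
      refine ⟨Δ, hΔ, fun s hs v => ?_⟩
      have h1 := hf s hs (fun l => Pi.single (c l) (v l))
      change f (fun l => Pi.single (c l) (ρ s (v l))) = χ s ^ m * f (fun l => Pi.single (c l) (v l))
      rw [← h1]
      congr 1
      funext l i
      by_cases hi : i = c l
      · subst hi
        rw [Pi.single_eq_same, Pi.single_eq_same]
      · rw [Pi.single_eq_of_ne hi, Pi.single_eq_of_ne hi, map_zero]
    have hsum : (fun v => f v) = ∑ c : Fin m × Fin 2 → Fin n,
        (fun v : Fin m × Fin 2 → Fin n → V => fc c (fun l => v l (c l))) := by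
      funext v
      rw [Finset.sum_apply]
      have h1 : v = fun l => ∑ i, Pi.single i (v l i) := by
        funext l
        exact (Finset.univ_sum_single (v l)).symm
      conv_lhs => rw [h1]
      exact f.toMultilinearMap.map_sum (fun l i => Pi.single i (v l i))
    rw [hsum]
    refine Submodule.sum_mem _ fun c _ => ?_
    have h2 := hall (fc c) (hfc c)
    have h3 : ∀ φ ∈ Submodule.span Ω (Set.range (mm ω (m := m))),
        (fun v : Fin m × Fin 2 → Fin n → V => φ (fun l => v l (c l))) ∈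
        Submodule.span Ω {g : (Fin m × Fin 2 → Fin n → V) → Ω |
      ∃ (e : Equiv.Perm (Fin m × Fin 2))
        (B : Fin m → MultilinearMap Ω (fun _ : Fin 2 => Fin n → V) Ω),
        (∀ s, B s ∈ BB) ∧ g = fun v => ∏ s, B s (fun ε => v (e (s, ε)))} := by
      intro φ hφ
      induction hφ using Submodule.span_induction with
      | mem φ hφ =>
        obtain ⟨σ, rfl⟩ := hφ
        refine Submodule.subset_span ⟨σ, fun s => bil2 (ω.compl₁₂
          (LinearMap.proj (c (σ (s, 0)))) (LinearMap.proj (c (σ (s, 1))))), fun s => ?_, ?_⟩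
        · intro t v
          rw [bil2_apply, bil2_apply]
          exact hωρ t _ _
        · funext v
          rw [mm_apply]
          rfl
      | zero => exact Submodule.zero_mem _
      | add a b _ _ ha hb => exact Submodule.add_mem _ ha hb
      | smul c a _ ha => exact Submodule.smul_mem _ c ha
    exact h3 _ h2
  have h1 := alt_span BB f hmem
  refine Submodule.span_mono ?_ h1
  rintro g ⟨B, hB, hg⟩
  refine ⟨fun l => MultilinearMap.alternatization (B l), fun l s v => ?_, hg⟩
  rw [MultilinearMap.alternatization_apply, MultilinearMap.alternatization_apply, Finset.mul_sum]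
  refine Finset.sum_congr rfl fun σ _ => ?_
  rw [mul_smul_comm]
  congr 1
  exact hB l s (fun ε => v (σ ε))

end Pool.Agent.H204R3.SP
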