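import Mathlib
import Pool.Agent.H86.CMLib.H204R3.CM.CoreTwo

/-!
# The combinatorial core at the prime `2` for vectors with odd entries
-/

namespace Pool.Agent.H204R3.SP

open MulAction Pool.Agent.H925R2 Pool.Agent.H204R3.CM

variable {G : Type*} [Group G] [Finite G]
  {Y : Type*} [Fintype Y] [DecidableEq Y] [MulAction G Y]

/-- A relation between all translates of an antisymmetric vector `e` with odd entries on a set of
cardinality `2 ^ (k + 1)` is trivial, if there is a group element for which the number of elements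
of the half system `e ≡ 1` modulo `4` that leave it is odd. -/
theorem core_odd_val [IsPretransitive G Y] (inv : Y → Y)
    (hinv : ∀ x, inv (inv x) = x) (hne : ∀ x, inv x ≠ x)
    (hG : ∀ (g : G) (x : Y), g • inv x = inv (g • x))
    (k : ℕ) (hcard : Fintype.card Y = 2 * 2 ^ k)
    (e : Y → ℤ) (he : ∀ x, e (inv x) = -e x) (hodd : ∀ x, Odd (e x))
    (hS : ∃ g : G, Odd ((Finset.univ.filter (fun x => e x % 4 = 1)).filter
      (fun x => g • x ∉ Finset.univ.filter (fun x => e x % 4 = 1))).card)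
    (c : Y → ℤ) (hc : ∀ x, c (inv x) = -c x)
    (hrel : ∀ g : G, ∑ x, c x * e (g • x) = 0) :
    ∀ x, c x = 0 := by
  classical
  by_contra hcon
  push Not at hcon
  obtain ⟨x₀, hx₀⟩ := hcon
  have _ : Fact (Nat.Prime 2) := ⟨Nat.prime_two⟩
  obtain ⟨S⟩ : Nonempty (Sylow 2 G) := inferInstance
  obtain ⟨f, ⟨y₀, hy₀⟩, hf1, hf2, hf3⟩ := exists_fixed (inv := inv) hinv hG 2 S
    {u | ∃ h g : G, ∀ x, 2 * u x = e (h • x) - e (g • x)}
    (by
      rintro u ⟨h, g, hu⟩ t
      exact ⟨h * t, g * t, fun x => by rw [hu (t • x), mul_smul, mul_smul]⟩)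
    (by
      rintro u ⟨h, g, hu⟩ x
      have h1 := hu x
      have h2 := hu (inv x)
      rw [hG, hG, he, he] at h2
      omega)
    c hc (by
      rintro u ⟨h, g, hu⟩
      have h2 : 2 * ∑ x, c x * u x = 0 := by
        rw [Finset.mul_sum]
        have h3 : ∀ x, 2 * (c x * u x) = c x * e (h • x) - c x * e (g • x) := by
          intro x
          rw [mul_left_comm, hu x, mul_sub]
        rw [Finset.sum_congr rfl (fun x _ => h3 x), Finset.sum_sub_distrib, hrel, hrel, sub_zero]
      omega)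
    ⟨x₀, hx₀⟩
  have hneg := neg_two
  have hconst : ∀ x y : Y, f x = f y := by
    intro x y
    obtain ⟨s, hs | hs⟩ := sylow_pairs hinv hne hG 2 k hcard S x y
    · rw [← hf2 s x]
      congr 1
    · rw [← hf2 s x, ← hneg (f y), ← hf1 y]
      congr 1
  have hone := one_two
  have hf : ∀ x, f x = 1 := by
    intro x
    rw [hconst x y₀]
    exact hone _ hy₀
  obtain ⟨g, hg⟩ := hS
  set Φ : Finset Y := Finset.univ.filter (fun x => e x % 4 = 1) with hΦ
  have hmem : ∀ x, x ∈ Φ ↔ e x % 4 = 1 := fun x => by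
    rw [hΦ, Finset.mem_filter]
    exact ⟨fun h => h.2, fun h => ⟨Finset.mem_univ _, h⟩⟩
  let u : Y → ℤ := fun x => (e x - e (g • x)) / 2
  have hu2 : ∀ x, 2 * u x = e x - e (g • x) := by
    intro x
    obtain ⟨a, ha⟩ := hodd x
    obtain ⟨b, hb⟩ := hodd (g • x)
    change 2 * ((e x - e (g • x)) / 2) = _
    omega
  have hhalf : IsHalf inv Φ := by
    intro x
    rw [hmem, hmem, he]
    obtain ⟨a, ha⟩ := hodd x
    omega
  have h1 := hf3 u ⟨1, g, fun x => by rw [hu2 x, one_smul]⟩ Φ hhalf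
  have h3 : ∀ x ∈ Φ, f x * ((u x : ℤ) : ZMod 2) = if g • x ∉ Φ then 1 else 0 := by
    intro x hx
    rw [hf, one_mul]
    rw [hmem] at hx
    have h4 := hu2 x
    obtain ⟨b, hb⟩ := hodd (g • x)
    by_cases h5 : g • x ∈ Φ
    · rw [if_neg (not_not.2 h5)]
      rw [hmem] at h5
      have h6 : (2 : ℤ) ∣ u x := by omega
      exact (ZMod.intCast_zmod_eq_zero_iff_dvd (u x) 2).2 h6
    · rw [if_pos h5]
      rw [hmem] at h5
      have h6 : ¬ (2 : ℤ) ∣ u x := by omega
      apply hone
      intro h7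
      apply h6
      exact (ZMod.intCast_zmod_eq_zero_iff_dvd (u x) 2).1 h7
  rw [Finset.sum_congr rfl h3, Finset.sum_boole, ZMod.natCast_eq_zero_iff] at h1
  rw [← Nat.not_even_iff_odd] at hg
  exact hg (even_iff_two_dvd.2 h1)

end Pool.Agent.H204R3.SP
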