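import Mathlib
import Pool.Agent.H86.CMLib.H204R3.CM.Nondeg
import Pool.Agent.H86.CMLib.H204R3.SP.Slopes
import Pool.Agent.H86.CMLib.H204R3.SP.Descent

/-!
# Tate classes and one Frobenius element
-/

set_option linter.unusedSectionVars false

namespace Pool.Agent.H204R3.SP

open NumberField Module Pool.Agent.H204R3.CM TensorProduct IntermediateField

noncomputable section

theorem emb_inj {F L : Type*} [Field F] [CharZero F] [Field L] [CharZero L] {π : F}
    (hgen : ℚ⟮π⟯ = ⊤) {φ ψ : F →+* L} (h : φ π = ψ π) : φ = ψ := by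
  let φ' : F →ₐ[ℚ] L := RingHom.equivRatAlgHom F L φ
  let ψ' : F →ₐ[ℚ] L := RingHom.equivRatAlgHom F L ψ
  have h1 : φ'.comp (⊤ : IntermediateField ℚ F).val = ψ'.comp (⊤ : IntermediateField ℚ F).val := by
    refine IntermediateField.algHom_ext_of_eq_adjoin ℚ (s := {π}) hgen.symm ?_
    intro x hx
    rw [Set.mem_singleton_iff] at hx
    subst hx
    exact h
  ext x
  exact congrArg (fun g : (⊤ : IntermediateField ℚ F) →ₐ[ℚ] L => g ⟨x, trivial⟩) h1

/-- A basis of eigenvectors. -/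
theorem exists_eigenbasis {F L Ω : Type*} [Field F] [NumberField F] [Field L] [CharZero L]
    [Field Ω] [CharZero Ω] {π : F} (hgen : ℚ⟮π⟯ = ⊤) (jΩ : L →+* Ω)
    [Fintype (F →+* L)] (hcard : Fintype.card (F →+* L) = finrank ℚ F)
    {W : Type*} [AddCommGroup W] [Module Ω W] [FiniteDimensional Ω W] (T : Module.End Ω W)
    (hT : T.charpoly = (minpoly ℚ π).map (algebraMap ℚ Ω)) :
    ∃ e : Basis (F →+* L) Ω W, ∀ x, T (e x) = jΩ (x π) • e x := by
  classical
  have h1 : ∀ x : F →+* L, T.HasEigenvalue (jΩ (x π)) := by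
    intro x
    rw [Module.End.hasEigenvalue_iff_isRoot_charpoly, hT, Polynomial.IsRoot,
      Polynomial.eval_map_algebraMap]
    let y : F →ₐ[ℚ] Ω := RingHom.equivRatAlgHom F Ω (jΩ.comp x)
    have h2 := minpoly.aeval ℚ π
    have h3 := congrArg y h2
    rw [← Polynomial.aeval_algHom_apply, map_zero] at h3
    exact h3
  choose v hv using fun x => (h1 x).exists_hasEigenvector
  have hinj : Function.Injective (fun x : F →+* L => jΩ (x π)) := by
    intro x y hxy
    exact emb_inj hgen (jΩ.injective hxy)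
  have hli := Module.End.eigenvectors_linearIndependent' T (fun x : F →+* L => jΩ (x π)) hinj v hv
  have hfin : Fintype.card (F →+* L) = finrank Ω W := by
    rw [← LinearMap.charpoly_natDegree T, hT, Polynomial.natDegree_map, hcard]
    exact ((Field.primitive_element_iff_minpoly_natDegree_eq ℚ π).1 hgen).symm
  by_cases hne : Nonempty (F →+* L)
  · refine ⟨basisOfLinearIndependentOfCardEqFinrank hli hfin, fun x => ?_⟩
    rw [coe_basisOfLinearIndependentOfCardEqFinrank]
    exact (hv x).apply_eq_smul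
  · exfalso
    have : 0 < finrank ℚ F := finrank_pos
    rw [← hcard, Fintype.card_pos_iff] at this
    exact hne this

variable {k : Type*} [Field k] {V : Type*} [AddCommGroup V] [Module k V]

theorem bcb_nondeg {Ω : Type*} [Field Ω] [Algebra k Ω] {ν : Type*} [Fintype ν] [DecidableEq ν]
    (b : Basis ν k V) (ω : V →ₗ[k] V →ₗ[k] k) (hnd : ∀ u, (∀ v, ω v u = 0) → u = 0)
    (hnd' : ∀ u, (∀ v, ω u v = 0) → u = 0)
    (u : Ω ⊗[k] V) (hu : ∀ v, bcb Ω ω v u = 0) : u = 0 := by
  have hB : LinearMap.BilinForm.Nondegenerate ω := ⟨hnd', hnd⟩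
  let d := LinearMap.BilinForm.dualBasis ω hB b
  have h1 : u = ∑ i, (b.baseChange Ω).repr u i • (b.baseChange Ω i) :=
    ((b.baseChange Ω).sum_repr u).symm
  rw [← LinearEquiv.map_eq_zero_iff (b.baseChange Ω).repr]
  ext i
  rw [Finsupp.zero_apply]
  have h2 := hu ((1 : Ω) ⊗ₜ[k] d i)
  rw [h1, map_sum] at h2
  have h3 : ∀ l, bcb Ω ω ((1 : Ω) ⊗ₜ[k] d i) ((b.baseChange Ω).repr u l • (b.baseChange Ω l)) =
      if l = i then (b.baseChange Ω).repr u l else 0 := by
    intro l
    rw [map_smul, Basis.baseChange_apply, bcb_one, LinearMap.BilinForm.apply_dualBasis_left,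
      smul_eq_mul]
    split_ifs
    · rw [map_one, mul_one]
    · rw [map_zero, mul_zero]
  rw [Finset.sum_congr rfl (fun l _ => h3 l), Finset.sum_ite_eq', if_pos (Finset.mem_univ _)] at h2
  exact h2

/-- The main theorem: Tate forms are combinations of products of the symplectic form. -/
theorem tate_mem_of_frobenius {k : Type*} [Field k] [CharZero k] {V : Type*} [AddCommGroup V]
    [Module k V] [FiniteDimensional k V]
    {p : ℕ} [Fact p.Prime] {a : ℕ} (ha : 0 < a)
    {F : Type*} [Field F] [NumberField F] [IsCMField F] {π : F} (hgen : ℚ⟮π⟯ = ⊤)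
    (hw : π * IsCMField.complexConj F π = (p : F) ^ a)
    (hslope : OddSlopes p a π) {d : ℕ} (hdeg : finrank ℚ F = 2 ^ (d + 1))
    (hdisc : ¬ IsSquare (discr F))
    {Γ : Type*} [Group Γ] (ρ : Representation k Γ V) (χ : Γ →* k)
    (ω : V →ₗ[k] V →ₗ[k] k) (halt : ∀ v, ω v v = 0) (hnd : ∀ u, (∀ v, ω v u = 0) → u = 0)
    (hωρ : ∀ s u v, ω (ρ s u) (ρ s v) = χ s * ω u v)
    (hirr : ∀ Δ : Subgroup Γ, Δ.FiniteIndex → Submodule.span k (ρ '' (Δ : Set Γ)) = ⊤)
    (γ : Γ) (hχ : χ γ = (p : k) ^ a)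
    (hγ : (ρ γ).charpoly = (minpoly ℚ π).map (algebraMap ℚ k))
    {m : ℕ} (φ : MultilinearMap k (fun _ : Fin m × Fin 2 => V) k) (hφ : IsTate ρ χ m φ) :
    φ ∈ Submodule.span k (Set.range (mm ω (m := m))) := by
  classical
  obtain ⟨L, hL1, hL2, j, hj⟩ := exists_galois (fun _ : Unit => F)
  have h := hj ()
  let Ω := AlgebraicClosure k
  let jΩ : L →ₐ[ℚ] Ω := IsAlgClosed.lift
  let jp : L →ₐ[ℚ] PadicAlgCl p := IsAlgClosed.lift
  have hcardE : Fintype.card (F →+* L) = finrank ℚ F := card_emb j h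
  have hanti : ∀ u v, ω u v = -ω v u := by
    intro u v
    have h1 := halt (u + v)
    simp only [map_add, LinearMap.add_apply, halt, zero_add, add_zero] at h1
    exact eq_neg_of_add_eq_zero_left (by rw [← h1]; ring)
  have hnd' : ∀ u, (∀ v, ω u v = 0) → u = 0 := by
    intro u hu
    apply hnd
    intro v
    rw [hanti, hu, neg_zero]
  let b := Module.finBasis k V
  have hTchar : (bcr ρ Ω γ).charpoly = (minpoly ℚ π).map (algebraMap ℚ Ω) := by
    change ((ρ γ).baseChange Ω).charpoly = _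
    rw [LinearMap.charpoly_baseChange, hγ, Polynomial.map_map]
    congr 1
  obtain ⟨e, he⟩ := exists_eigenbasis (Ω := Ω) (L := L) hgen (jΩ : L →+* Ω) hcardE
    (bcr ρ Ω γ) hTchar
  have hantiΩ : ∀ u v, bcb Ω ω u v = -bcb Ω ω v u := by
    have h1 : bcb Ω ω = -(bcb Ω ω).flip := by
      refine (b.baseChange Ω).ext fun i => (b.baseChange Ω).ext fun l => ?_
      rw [LinearMap.neg_apply, LinearMap.neg_apply, LinearMap.flip_apply, Basis.baseChange_apply,
        Basis.baseChange_apply, bcb_one, bcb_one, hanti, map_neg]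
    intro u v
    exact congrArg (fun F : (Ω ⊗[k] V) →ₗ[Ω] (Ω ⊗[k] V) →ₗ[Ω] Ω => F u v) h1
  have hq : ∀ x y : F →+* L, y ≠ cbar x → bcb Ω ω (e x) (e y) = 0 := by
    intro x y hxy
    by_contra h0
    apply hxy
    have h1 := bcb_inv ρ χ (Ω := Ω) ω hωρ γ (e x) (e y)
    rw [he, he, map_smul, map_smul, LinearMap.smul_apply, smul_eq_mul, smul_eq_mul, bcc_apply, hχ,
      ← mul_assoc] at h1
    have h2 := mul_right_cancel₀ h0 h1
    have h3 : jΩ (y π * x π) = jΩ ((p : L) ^ a) := by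
      simp only [map_mul, map_pow, map_natCast] at h2 ⊢
      exact h2
    have h4 := jΩ.injective h3
    have h5 : x π * cbar x π = (p : L) ^ a := by
      rw [cbar_apply, ← map_mul, hw, map_pow, map_natCast]
    have hx0 : x π ≠ 0 := by
      intro h6
      rw [h6, zero_mul] at h5
      exact pow_ne_zero a (Nat.cast_ne_zero.2 (Fact.out : p.Prime).ne_zero) h5.symm
    apply emb_inj hgen
    apply mul_left_cancel₀ hx0
    rw [h5, mul_comm, h4]
  let jj : (F →+* L) → Ω := fun x => bcb Ω ω (e x) (e (cbar x))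
  have hjj : ∀ x, jj (cbar x) = -jj x := by
    intro x
    simp only [jj, cbar_cbar]
    exact hantiΩ _ _
  have hj0 : ∀ x, jj x ≠ 0 := by
    intro x h0
    apply e.ne_zero (cbar x)
    apply bcb_nondeg b ω hnd hnd'
    have h1 : (bcb Ω ω).flip (e (cbar x)) = 0 := by
      refine e.ext fun y => ?_
      rw [LinearMap.flip_apply, LinearMap.zero_apply]
      by_cases hy : cbar x = cbar y
      · have h2 : y = x := by rw [← cbar_cbar y, ← hy, cbar_cbar]
        rw [h2]
        exact h0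
      · exact hq _ _ hy
    intro v
    exact congrArg (fun F : (Ω ⊗[k] V) →ₗ[Ω] Ω => F v) h1
  have hω : ∀ x y, bcb Ω ω (e x) (e y) = JJ cbar jj x y := by
    intro x y
    unfold JJ
    by_cases hy : y = cbar x
    · rw [if_pos hy, hy]
    · rw [if_neg hy, hq x y hy]
  have hbal : ∀ (m : ℕ) (φ : MultilinearMap Ω (fun _ : Fin m × Fin 2 => Ω ⊗[k] V) Ω),
      IsTate (bcr ρ Ω) (bcc χ Ω) m φ →
      ∀ I : Fin m × Fin 2 → (F →+* L), φ (fun l => e (I l)) ≠ 0 → ∀ y,
        (Finset.univ.filter (fun l => I l = y)).card =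
          (Finset.univ.filter (fun l => I l = cbar y)).card := by
    rintro m φ ⟨Δ, hΔ, hφ⟩ I hI y
    obtain ⟨M, hM, -, hMΔ⟩ := Subgroup.exists_pow_mem_of_index_ne_zero hΔ.index_ne_zero γ
    refine balance ha hw hslope hdeg hdisc j h (jp : L →+* PadicAlgCl p) hM I ?_ y
    have h1 := hφ (γ ^ M) hMΔ (fun l => e (I l))
    have h2 : ∀ (n : ℕ) (x : F →+* L), bcr ρ Ω (γ ^ n) (e x) = (jΩ (x π)) ^ n • e x := by
      intro n x
      induction n with
      | zero => rw [pow_zero, pow_zero, one_smul, map_one]; rfl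
      | succ n ih =>
        rw [pow_succ, map_mul, pow_succ, Module.End.mul_apply, he]
        change bcr ρ Ω (γ ^ n) ((jΩ (x π)) • e x) = _
        rw [map_smul, ih, smul_smul, mul_comm]
    simp only [h2] at h1
    rw [MultilinearMap.map_smul_univ, smul_eq_mul, map_pow, bcc_apply, hχ] at h1
    have h3 := mul_right_cancel₀ hI h1
    have h4 : jΩ (∏ l, (I l π) ^ M) = jΩ (((p : L) ^ a) ^ (m * M)) := by
      simp only [map_prod, map_pow, map_natCast] at h3 ⊢
      rw [h3, ← pow_mul, ← pow_mul, ← pow_mul]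
      congr 1
      ring
    exact jΩ.injective h4
  refine tate_descent (Ω := Ω) b ρ χ ω ?_ φ hφ
  intro φ' hφ'
  refine tate_mem e cbar_cbar cbar_ne hjj hj0 (bcb Ω ω) hω (bcr ρ Ω) (bcc χ Ω)
    (bcb_inv ρ χ ω hωρ) ?_ hbal φ' hφ'
  intro Δ hΔ U hU
  exact bcr_irr b ρ Δ (hirr Δ hΔ) U hU

end

end Pool.Agent.H204R3.SP
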